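import Mathlib
import Pool.Agent.H20.Q1.Sharp
import Pool.Agent.H33.Q1.Inv

set_option autoImplicit false
open Finset

/-! # Three arms at a flat wall, four directions

`V3 ν z ρ R ω` : an open cluster of the half box with inner normal `ν` around `z` joins a vertex at
distance `≤ ρ` to a vertex at distance `≥ R` and does not meet the wall. `V3_le` : its probability is
at most `C (ρ / R) ^ 2`. -/

namespace Pool.Agent.H33.Q1

open Pool.Agent.H75.Perc hiding WL CT hh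
open Pool.Agent.H75.TwoArm Pool.Agent.H75.Four Pool.Agent.H69.Q1 Pool.Agent.Q1
open Pool.Agent.H60.Q1 Pool.Agent.H20.Q1

/-- height of a vertex above the wall through `z` -/
def hg (ν z v : ℤ × ℤ) : ℤ := ν.1 * (v.1 - z.1) + ν.2 * (v.2 - z.2)

/-- doubled height of a label -/
def hl (ν z e : ℤ × ℤ) : ℤ := ν.1 * (e.1 - 2 * z.1) + ν.2 * (e.2 - 2 * z.2)

lemma hl_add (ν z u v : ℤ × ℤ) : hl ν z (u + v) = hg ν z u + hg ν z v := by
  unfold hl hg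
  simp only [Prod.fst_add, Prod.snd_add]
  ring

/-- labels of the half box, strictly above the wall -/
noncomputable def HB (ν z : ℤ × ℤ) (R : ℤ) : Finset (ℤ × ℤ) :=
  (Bx (z.1 - R) (z.1 + R) (z.2 - R) (z.2 + R)).filter fun e => 0 < hl ν z e

lemma mem_HB {ν z : ℤ × ℤ} {R : ℤ} {e : ℤ × ℤ} : e ∈ HB ν z R ↔
    e ∈ Bx (z.1 - R) (z.1 + R) (z.2 - R) (z.2 + R) ∧ 0 < hl ν z e := by
  unfold HB
  rw [mem_filter]

/-- three arms at the wall -/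
def V3 (ν z : ℤ × ℤ) (ρ R : ℤ) (ω : Finset (ℤ × ℤ)) : Prop :=
  ∃ u v, Near z ρ u ∧ Far z R v ∧ Co (ω ∩ HB ν z R) u v ∧
    ∀ y, Co (ω ∩ HB ν z R) u y → 0 < hg ν z y

lemma V3_local {ν z : ℤ × ℤ} {ρ R : ℤ} {ω : Finset (ℤ × ℤ)} :
    V3 ν z ρ R ω ↔ V3 ν z ρ R (ω ∩ HB ν z R) := by
  unfold V3
  rw [inter_assoc, inter_self]

/-- part of a connection outside the inner box -/
lemma co_exit {η : Finset (ℤ × ℤ)} {z : ℤ × ℤ} {ρ : ℤ} {u v : ℤ × ℤ} (h : Co η u v)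
    (hu : Near z ρ u) (hv : ¬ Near z ρ v) : ∃ p, Near z ρ p ∧ Co η u p ∧
      Co (η \ Bx (z.1 - ρ) (z.1 + ρ) (z.2 - ρ) (z.2 + ρ)) p v := by
  induction h with
  | refl => exact absurd hu hv
  | @tail b c hab hbc ih =>
    have hlab : b + c ∈ Bx (z.1 - ρ) (z.1 + ρ) (z.2 - ρ) (z.2 + ρ) → Near z ρ c := by
      intro h1
      rw [mem_Bx] at h1
      have h2 := unit_cases hbc.1
      simp only [Prod.fst_add, Prod.snd_add] at h1
      unfold Near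
      rw [abs_le, abs_le]
      omega
    by_cases hb : Near z ρ b
    · refine ⟨b, hb, hab, Relation.ReflTransGen.single ⟨hbc.1, mem_sdiff.2 ⟨hbc.2, fun h1 => hv (hlab h1)⟩⟩⟩
    · obtain ⟨p, h1, h2, h3⟩ := ih hb
      exact ⟨p, h1, h2, h3.tail ⟨hbc.1, mem_sdiff.2 ⟨hbc.2, fun h1 => hv (hlab h1)⟩⟩⟩

lemma near_or_far {z u : ℤ × ℤ} {ρ R : ℤ} (h : ρ < R) (hu : Near z ρ u) : ¬ Far z R u := by
  unfold Near at hu
  unfold Far
  rw [abs_le, abs_le] at hu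
  rw [le_abs, le_abs]
  omega

theorem V3_U3 {z : ℤ × ℤ} {ρ R : ℤ} (hρR : ρ < R) {ω : Finset (ℤ × ℤ)}
    (h : V3 (0, 1) z ρ R ω) : U3 0 z ρ R ω := by
  obtain ⟨u, v, hu, hv, huv, hcu⟩ := h
  have hv' : ¬ Near z ρ v := fun h1 => near_or_far hρR h1 hv
  obtain ⟨p, hp, hup, hpv⟩ := co_exit huv hu hv'
  have hhg : ∀ y, hg (0, 1) z y = y.2 - z.2 := fun y => by unfold hg; ring
  have hhl : ∀ y, hl (0, 1) z y = y.2 - 2 * z.2 := fun y => by unfold hl; ring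
  have hsub : (ω ∩ HB (0, 1) z R) \ Bx (z.1 - ρ) (z.1 + ρ) (z.2 - ρ) (z.2 + ρ) ⊆
      ω ∩ AL 0 z ρ R := by
    intro l hl'
    obtain ⟨h1, h2⟩ := mem_sdiff.1 hl'
    obtain ⟨h3, h4⟩ := mem_inter.1 h1
    rw [mem_HB, hhl] at h4
    refine mem_inter.2 ⟨h3, ?_⟩
    unfold AL
    refine mem_sdiff.2 ⟨?_, h2⟩
    rw [mem_HL]
    have := mem_Bx.1 h4.1
    omega
  refine ⟨p, v, hp, hv, hpv.mono hsub, ?_⟩
  -- the cluster in the annulus is a cluster off the wall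
  have key : ∀ y, Co (ω ∩ AL 0 z ρ R) p y → Co (ω ∩ HB (0, 1) z R) u y := by
    intro y hy
    induction hy with
    | refl => exact hup
    | @tail b c _ hbc ih =>
      have h1 := hcu b ih
      rw [hhg] at h1
      refine ih.tail ⟨hbc.1, ?_⟩
      obtain ⟨h3, h4⟩ := mem_inter.1 hbc.2
      refine mem_inter.2 ⟨h3, mem_HB.2 ⟨?_, ?_⟩⟩
      · have := (mem_AL.1 h4).1.1
        rw [mem_Bx]; exact this
      · rw [hhl]
        have := unit_cases hbc.1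
        simp only [Prod.snd_add]
        omega
  intro y hy
  have h1 := hcu y (key y hy)
  rw [hhg] at h1
  unfold ht
  omega

lemma Near.near {z u : ℤ × ℤ} {ρ R : ℤ} (h : ρ ≤ R) (hu : Near z ρ u) : Near z R u := by
  unfold Near at hu ⊢
  rw [abs_le, abs_le] at hu ⊢
  omega

/-! ### Symmetries -/

lemma V3_sy (S : Sy) {ν ν' z : ℤ × ℤ} {ρ R : ℤ} (hN : ∀ u ρ, Near (S.g z) ρ (S.g u) ↔ Near z ρ u)
    (hF : ∀ u, Far (S.g z) R (S.g u) ↔ Far z R u) (hh : ∀ y, hg ν' (S.g z) (S.g y) = hg ν z y)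
    (hE : ∀ e, e ∈ HB ν' (S.g z) R ↔ S.G' e ∈ HB ν z R) {ω : Finset (ℤ × ℤ)} :
    V3 ν' (S.g z) ρ R (ω.map S.G) ↔ V3 ν z ρ R ω := by
  unfold V3
  rw [S.map_inter ω hE]
  constructor
  · rintro ⟨u, v, h1, h2, h3, h4⟩
    refine ⟨S.g' u, S.g' v, ?_, ?_, ?_, ?_⟩
    · rw [← hN, S.gg']; exact h1
    · rw [← hF, S.gg']; exact h2
    · rw [← S.co_iff, S.gg', S.gg']; exact h3
    · intro y hy
      rw [← S.co_iff, S.gg'] at hy
      rw [← hh]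
      exact h4 _ hy
  · rintro ⟨u, v, h1, h2, h3, h4⟩
    refine ⟨S.g u, S.g v, (hN u ρ).2 h1, (hF v).2 h2, (S.co_iff _ _ _).2 h3, ?_⟩
    intro y hy
    rw [← S.gg' y, S.co_iff] at hy
    have := h4 _ hy
    rw [← hh, S.gg'] at this
    exact this

lemma V3_syY {z : ℤ × ℤ} {ρ R : ℤ} {ω : Finset (ℤ × ℤ)} :
    V3 (0, -1) z ρ R (ω.map (syY (2 * z.2)).G) ↔ V3 (0, 1) z ρ R ω := by
  have hz : (syY (2 * z.2)).g z = z := by
    show (z.1, 2 * z.2 - z.2) = z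
    refine Prod.ext rfl ?_
    simp only
    ring
  have := V3_sy (syY (2 * z.2)) (ν := (0, 1)) (ν' := (0, -1)) (z := z) (ρ := ρ) (R := R) (ω := ω)
    (fun u ρ => by
      rw [hz]
      show Near z ρ (u.1, 2 * z.2 - u.2) ↔ _
      unfold Near
      simp only [abs_le]
      omega)
    (fun u => by
      rw [hz]
      show Far z R (u.1, 2 * z.2 - u.2) ↔ _
      unfold Far
      simp only [le_abs]
      omega)
    (fun y => by
      rw [hz]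
      show hg (0, -1) z (y.1, 2 * z.2 - y.2) = _
      unfold hg
      simp only
      ring)
    (fun e => by
      rw [hz, mem_HB, mem_HB, mem_Bx, mem_Bx]
      unfold hl syY
      simp only
      omega)
  rwa [hz] at this

lemma V3_syD {ν z : ℤ × ℤ} {ρ R : ℤ} {ω : Finset (ℤ × ℤ)} :
    V3 (ν.2, ν.1) (z.2, z.1) ρ R (ω.map syD.G) ↔ V3 ν z ρ R ω := by
  have := V3_sy syD (ν := ν) (ν' := (ν.2, ν.1)) (z := z) (ρ := ρ) (R := R) (ω := ω)
    (fun u ρ => by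
      show Near (z.2, z.1) ρ (u.2, u.1) ↔ _
      unfold Near
      simp only
      tauto)
    (fun u => by
      show Far (z.2, z.1) R (u.2, u.1) ↔ _
      unfold Far
      simp only
      tauto)
    (fun y => by
      show hg (ν.2, ν.1) (z.2, z.1) (y.2, y.1) = _
      unfold hg
      simp only
      ring)
    (fun e => by
      show e ∈ HB (ν.2, ν.1) (z.2, z.1) R ↔ (e.2, e.1) ∈ HB ν z R
      rw [mem_HB, mem_HB, mem_Bx, mem_Bx]
      unfold hl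
      simp only
      rw [add_comm (ν.2 * (e.1 - 2 * z.2))]
      have : (e.1 + e.2) % 2 = 1 ↔ (e.2 + e.1) % 2 = 1 := by rw [add_comm]
      tauto)
  exact this

lemma Pr_V3_local {E : Finset (ℤ × ℤ)} {ν z : ℤ × ℤ} {ρ R : ℤ} (hE : HB ν z R ⊆ E) :
    Pr E (V3 ν z ρ R) = Pr (HB ν z R) (V3 ν z ρ R) := by
  rw [← Pr_restrict hE]
  exact Pr_congr fun ω _ => V3_local

/-- **Three arms at a flat wall**, four directions. -/
theorem V3_le : ∃ C : ℝ, 0 < C ∧ ∀ (E : Finset (ℤ × ℤ)) (ν z : ℤ × ℤ) (ρ R : ℤ), IsUnit4 ν →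
    HB ν z R ⊆ E → 1 ≤ ρ → ρ < R → Pr E (V3 ν z ρ R) ≤ C * (ρ / R) ^ 2 := by
  obtain ⟨C, hC, h⟩ := u3_le
  refine ⟨C, hC, ?_⟩
  -- the wall is below
  have base : ∀ (z : ℤ × ℤ) (ρ R : ℤ), 1 ≤ ρ → ρ < R →
      Pr (HB (0, 1) z R) (V3 (0, 1) z ρ R) ≤ C * (ρ / R) ^ 2 := by
    intro z ρ R h1 h2
    have h3 := h 0 (Or.inl rfl) z ρ R h1 (by omega)
    refine le_trans ?_ h3
    rw [← Pr_U3 (E := HB (0, 1) z R ∪ AL 0 z ρ R) subset_union_right,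
      ← Pr_V3_local (E := HB (0, 1) z R ∪ AL 0 z ρ R) subset_union_left]
    exact Pr_mono fun ω _ => V3_U3 h2
  have up : ∀ (z : ℤ × ℤ) (ρ R : ℤ), 1 ≤ ρ → ρ < R →
      Pr (HB (0, -1) z R) (V3 (0, -1) z ρ R) ≤ C * (ρ / R) ^ 2 := by
    intro z ρ R h1 h2
    have h3 := (syY (2 * z.2)).Pr (E1 := HB (0, 1) z R) (E2 := HB (0, -1) z R) (fun e => by
      rw [mem_HB, mem_HB, mem_Bx, mem_Bx]
      unfold hl syY
      simp only
      omega) (V3 (0, -1) z ρ R)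
    rw [h3]
    refine le_trans (le_of_eq ?_) (base z ρ R h1 h2)
    exact Pr_congr fun ω _ => V3_syY
  have tr : ∀ (ν z : ℤ × ℤ) (ρ R : ℤ), Pr (HB (ν.2, ν.1) (z.2, z.1) R)
      (V3 (ν.2, ν.1) (z.2, z.1) ρ R) = Pr (HB ν z R) (V3 ν z ρ R) := by
    intro ν z ρ R
    have h3 := syD.Pr (E1 := HB ν z R) (E2 := HB (ν.2, ν.1) (z.2, z.1) R) (fun e => by
      show e ∈ HB (ν.2, ν.1) (z.2, z.1) R ↔ (e.2, e.1) ∈ HB ν z R
      rw [mem_HB, mem_HB, mem_Bx, mem_Bx]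
      unfold hl
      simp only
      rw [add_comm (ν.2 * (e.1 - 2 * z.2))]
      have : (e.1 + e.2) % 2 = 1 ↔ (e.2 + e.1) % 2 = 1 := by rw [add_comm]
      tauto) (V3 (ν.2, ν.1) (z.2, z.1) ρ R)
    rw [h3]
    exact Pr_congr fun ω _ => V3_syD
  intro E ν z ρ R hν hE h1 h2
  rw [Pr_V3_local hE]
  rcases hν with rfl | rfl | rfl | rfl
  · have := tr (0, 1) (z.2, z.1) ρ R
    simp only at this
    rw [show ((1, 0) : ℤ × ℤ) = (1, 0) from rfl, this]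
    exact base _ ρ R h1 h2
  · exact base z ρ R h1 h2
  · have := tr (0, -1) (z.2, z.1) ρ R
    simp only at this
    rw [this]
    exact up _ ρ R h1 h2
  · exact up z ρ R h1 h2

/-- closed form -/
theorem V3_du_le : ∃ C : ℝ, 0 < C ∧ ∀ (E : Finset (ℤ × ℤ)) (ν z : ℤ × ℤ) (ρ R : ℤ), IsUnit4 ν →
    HB ν z R ⊆ E.map sh1 → 1 ≤ ρ → ρ < R →
      Pr E (fun ω => V3 ν z ρ R (du E ω)) ≤ C * (ρ / R) ^ 2 := by
  obtain ⟨C, hC, h⟩ := V3_le
  refine ⟨C, hC, fun E ν z ρ R hν hE h1 h2 => ?_⟩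
  rw [Pr_du]
  exact h _ ν z ρ R hν hE h1 h2

end Pool.Agent.H33.Q1
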