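import Mathlib
import Pool.Agent.H33.Q1.A.Arm3

set_option autoImplicit false
open Finset

/-! # Clusters near a flat wall and near a corner, deterministic part

`flat_local` : if the labels below `p + q` are open down to the wall, either `p`, `q` are joined, or the
cluster of one of them stays in the box, or there are three arms. `ball_local` : the same near a corner,
with one arm. -/

namespace Pool.Agent.H33.Q1

open Pool.Agent.H75.Perc hiding WL CT hh
open Pool.Agent.H75.TwoArm Pool.Agent.H75.Four Pool.Agent.H69.Q1 Pool.Agent.Q1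
open Pool.Agent.H60.Q1 Pool.Agent.H20.Q1

/-- the labels of the box of radius `R` around `z` -/
noncomputable abbrev BZ (z : ℤ × ℤ) (R : ℤ) : Finset (ℤ × ℤ) :=
  Bx (z.1 - R) (z.1 + R) (z.2 - R) (z.2 + R)

/-- closed downwards -/
def DC (ν z : ℤ × ℤ) (U : Finset (ℤ × ℤ)) : Prop :=
  ∀ y t : ℤ × ℤ, IsUnit4 t → y + (y + t) ∈ U → 0 < hg ν z y → y + (y - ν) ∈ U

lemma hg_sub {ν z y : ℤ × ℤ} (hν : IsUnit4 ν) : hg ν z (y - ν) = hg ν z y - 1 := by
  unfold hg
  rcases hν with rfl | rfl | rfl | rfl <;> simp only [Prod.fst_sub, Prod.snd_sub] <;> ring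

lemma hg_step {ν z x y : ℤ × ℤ} (hν : IsUnit4 ν) (h : IsUnit4 (y - x)) :
    hg ν z y ≤ hg ν z x + 1 ∧ hg ν z x ≤ hg ν z y + 1 := by
  have := unit_cases h
  unfold hg
  rcases hν with rfl | rfl | rfl | rfl <;> simp only <;> omega

lemma foot_near {ν z y : ℤ × ℤ} {R : ℤ} (hν : IsUnit4 ν) (hy : Near z R y) (h0 : 0 < hg ν z y) :
    Near z R (y - ν) := by
  unfold Near at hy ⊢
  unfold hg at h0
  rw [abs_le, abs_le] at hy ⊢
  rcases hν with rfl | rfl | rfl | rfl <;> simp only [Prod.fst_sub, Prod.snd_sub] at h0 ⊢ <;> omega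

lemma unit_neg {ν : ℤ × ℤ} (h : IsUnit4 ν) : IsUnit4 (-ν) := by
  unfold IsUnit4 at h ⊢
  rcases h with rfl | rfl | rfl | rfl <;> simp

/-- an end of a label of `U` is joined to the wall -/
lemma tie_co {ν z : ℤ × ℤ} {R : ℤ} {U : Finset (ℤ × ℤ)} (hν : IsUnit4 ν) (h : DC ν z U) : ∀ (n : ℕ)
    (y t : ℤ × ℤ), IsUnit4 t → y + (y + t) ∈ U → hg ν z y = n → Near z R y →
    ∃ f, hg ν z f = 0 ∧ Near z R f ∧ Co U y f := by
  intro n
  induction n with
  | zero => intro y t _ _ h1 h2; exact ⟨y, by simpa using h1, h2, Co.refl _ _⟩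
  | succ n ih =>
    intro y t ht hy h1 h2
    have hpos : 0 < hg ν z y := by rw [h1]; positivity
    have h3 := h y t ht hy hpos
    have h4 : hg ν z (y - ν) = n := by rw [hg_sub hν, h1]; push_cast; ring
    obtain ⟨f, h5, h6, h7⟩ := ih (y - ν) ν hν (by
      rw [sub_add_cancel, add_comm]; exact h3) h4 (foot_near hν h2 hpos)
    refine ⟨f, h5, h6, Relation.ReflTransGen.head ⟨?_, h3⟩ h7⟩
    rw [sub_sub_cancel_left]
    exact unit_neg hν

lemma co_hor {w : Finset (ℤ × ℤ)} {a c : ℤ} (n : ℕ) (h : ∀ i : ℤ, 0 ≤ i → i < n →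
    (2 * (a + i) + 1, 2 * c) ∈ w) : Co w (a, c) (a + n, c) := by
  induction n with
  | zero => simpa using Co.refl w (a, c)
  | succ n ih =>
    refine (ih fun i h1 h2 => h i h1 (by push_cast; omega)).tail ⟨?_, ?_⟩
    · left
      refine Prod.ext ?_ ?_ <;> simp
    · convert h n (by positivity) (by push_cast; omega) using 1
      refine Prod.ext ?_ ?_ <;> simp <;> ring

lemma co_ver {w : Finset (ℤ × ℤ)} {a c : ℤ} (n : ℕ) (h : ∀ i : ℤ, 0 ≤ i → i < n →
    (2 * a, 2 * (c + i) + 1) ∈ w) : Co w (a, c) (a, c + n) := by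
  induction n with
  | zero => simpa using Co.refl w (a, c)
  | succ n ih =>
    refine (ih fun i h1 h2 => h i h1 (by push_cast; omega)).tail ⟨?_, ?_⟩
    · right; left
      refine Prod.ext ?_ ?_ <;> simp
    · convert h n (by positivity) (by push_cast; omega) using 1
      refine Prod.ext ?_ ?_ <;> simp <;> ring

/-- the wall is joined along its row -/
lemma row_co {ν z : ℤ × ℤ} {R : ℤ} {w : Finset (ℤ × ℤ)} (hν : IsUnit4 ν)
    (h : ∀ l ∈ BZ z R, hl ν z l = 0 → l ∈ w) {x y : ℤ × ℤ} (hx : Near z R x) (hy : Near z R y)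
    (hx0 : hg ν z x = 0) (hy0 : hg ν z y = 0) : Co w x y := by
  have hcase : (x.2 = z.2 ∧ y.2 = z.2 ∧ (ν = (0, 1) ∨ ν = (0, -1))) ∨
      (x.1 = z.1 ∧ y.1 = z.1 ∧ (ν = (1, 0) ∨ ν = (-1, 0))) := by
    unfold hg at hx0 hy0
    rcases hν with rfl | rfl | rfl | rfl <;> simp only at hx0 hy0 <;> simp <;> omega
  obtain ⟨x1, x2⟩ := x
  obtain ⟨y1, y2⟩ := y
  unfold Near at hx hy
  rw [abs_le, abs_le] at hx hy
  simp only at hx hy hcase
  have hor : (ν = (0, 1) ∨ ν = (0, -1)) → ∀ a b : ℤ, z.1 - R ≤ a → a ≤ b → b ≤ z.1 + R →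
      Co w (a, z.2) (b, z.2) := by
    intro hν' a b h1 h2 h3
    obtain ⟨n, rfl⟩ := Int.le.dest h2
    refine co_hor n fun i h4 h5 => h _ ?_ ?_
    · rw [mem_Bx]; simp only; omega
    · unfold hl
      rcases hν' with rfl | rfl <;> simp
  have ver : (ν = (1, 0) ∨ ν = (-1, 0)) → ∀ a b : ℤ, z.2 - R ≤ a → a ≤ b → b ≤ z.2 + R →
      Co w (z.1, a) (z.1, b) := by
    intro hν' a b h1 h2 h3
    obtain ⟨n, rfl⟩ := Int.le.dest h2
    refine co_ver n fun i h4 h5 => h _ ?_ ?_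
    · rw [mem_Bx]; simp only; omega
    · unfold hl
      rcases hν' with rfl | rfl <;> simp
  rcases hcase with ⟨rfl, rfl, hν'⟩ | ⟨rfl, rfl, hν'⟩
  · rcases le_total x1 y1 with h1 | h1
    · exact hor hν' _ _ (by omega) h1 (by omega)
    · exact (hor hν' _ _ (by omega) h1 (by omega)).symm
  · rcases le_total x2 y2 with h1 | h1
    · exact ver hν' _ _ (by omega) h1 (by omega)
    · exact (ver hν' _ _ (by omega) h1 (by omega)).symm

/-- the first far vertex -/
lemma first_far {w : Finset (ℤ × ℤ)} (hw : ∀ l ∈ w, (l.1 + l.2) % 2 = 1) {z u x : ℤ × ℤ} {R : ℤ}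
    (h : Co w u x) (hu : ¬ Far z R u) (hx : Far z R x) :
    ∃ x', Far z R x' ∧ Co (w ∩ BZ z R) u x' := by
  induction h with
  | refl => exact absurd hx hu
  | @tail b c _ hbc ih =>
    by_cases hb : Far z R b
    · exact ih hb
    · -- all vertices before are near
      have hall : ∀ y, Co w u y → (∃ x', Far z R x' ∧ Co (w ∩ BZ z R) u x') ∨
          (Co (w ∩ BZ z R) u y ∧ ¬ Far z R y) := by
        intro y hy
        induction hy with
        | refl => exact Or.inr ⟨Co.refl _ _, hu⟩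
        | @tail p q _ hpq ih2 =>
          rcases ih2 with ih2 | ⟨ih2, ih3⟩
          · exact Or.inl ih2
          · have h3 : Co (w ∩ BZ z R) u q := by
              refine ih2.tail ⟨hpq.1, mem_inter.2 ⟨hpq.2, ?_⟩⟩
              have h1 := unit_cases hpq.1
              have h2 := hw _ hpq.2
              unfold Far at ih3
              rw [le_abs, le_abs] at ih3
              rw [mem_Bx]
              simp only [Prod.fst_add, Prod.snd_add] at h2 ⊢
              omega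
            by_cases h4 : Far z R q
            · exact Or.inl ⟨q, h4, h3⟩
            · exact Or.inr ⟨h3, h4⟩
      rename_i hab
      rcases hall b hab with h1 | ⟨h1, h2⟩
      · exact h1
      · refine ⟨c, hx, h1.tail ⟨hbc.1, mem_inter.2 ⟨hbc.2, ?_⟩⟩⟩
        have h3 := unit_cases hbc.1
        have h4 := hw _ hbc.2
        unfold Far at h2
        rw [le_abs, le_abs] at h2
        rw [mem_Bx]
        simp only [Prod.fst_add, Prod.snd_add] at h4 ⊢
        omega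

lemma near_of_bz {z x y : ℤ × ℤ} {R : ℤ} (h : IsUnit4 (y - x)) (hl : x + y ∈ BZ z R) :
    Near z R x ∧ Near z R y := by
  have h1 := unit_cases h
  rw [mem_Bx] at hl
  unfold Near
  rw [abs_le, abs_le, abs_le, abs_le]
  simp only [Prod.fst_add, Prod.snd_add] at hl
  omega

section flat

variable {ν z : ℤ × ℤ} {ρ R : ℤ} {w0 ω U : Finset (ℤ × ℤ)} {p q : ℤ × ℤ}

lemma flat_one (hν : IsUnit4 ν) (hodd : ∀ l ∈ w0, (l.1 + l.2) % 2 = 1) (hpq : IsUnit4 (q - p))
    (hp : Near z ρ p) (hq : Near z ρ q) (hρR : ρ < R)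
    (hrow : ∀ l ∈ BZ z R, hl ν z l = 0 → l ∈ w0) (hUw : U ⊆ w0) (hDC : DC ν z U)
    (hDp : 0 < hg ν z p → p + (p - ν) ∈ U) (hDq : hg ν z q ≤ hg ν z p → 0 < hg ν z q → q + (q - ν) ∈ U)
    (hω : ω ∩ HB ν z R ⊆ w0) (hw : ∀ l ∈ w0, l ∈ BZ z R → 0 < hl ν z l → l ∈ U ∨ l ∈ ω)
    (hpos : 0 < hl ν z (p + q)) (hle : hg ν z p ≤ hg ν z q) (hV : ¬ V3 ν z ρ R ω) :
    Co w0 p q ∨ ∀ x, Co w0 q x → ¬ Far z R x := by
  rw [hl_add] at hpos
  have hst := hg_step (z := z) hν hpq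
  have hp0 : 0 ≤ hg ν z p := by omega
  have hq0 : 0 < hg ν z q := by omega
  have hpR : Near z R p := Near.near hρR.le hp
  have hqR : Near z R q := Near.near hρR.le hq
  -- tied vertices
  have tied : ∀ y t, IsUnit4 t → y + (y + t) ∈ U → 0 ≤ hg ν z y → Near z R y →
      ∃ f, hg ν z f = 0 ∧ Near z R f ∧ Co w0 y f := by
    intro y t h1 h2 h3 h4
    obtain ⟨n, hn⟩ := Int.eq_ofNat_of_zero_le h3
    obtain ⟨f, h5, h6, h7⟩ := tie_co hν hDC n y t h1 h2 hn h4
    exact ⟨f, h5, h6, h7.mono hUw⟩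
  have tiedp : ∃ f, hg ν z f = 0 ∧ Near z R f ∧ Co w0 p f := by
    rcases hp0.eq_or_lt with h1 | h1
    · exact ⟨p, h1.symm, hpR, Co.refl _ _⟩
    · exact tied p (-ν) (unit_neg hν) (by rw [← sub_eq_add_neg]; exact hDp h1) hp0 hpR
  obtain ⟨f0, hf1, hf2, hf3⟩ := tiedp
  have joined : ∀ y f, Co w0 q y → hg ν z f = 0 → Near z R f → Co w0 y f → Co w0 p q := by
    intro y f h1 h2 h3 h4
    exact (hf3.trans (row_co hν hrow hf2 h3 hf1 h2)).trans (h1.trans h4).symm
  rcases hle.eq_or_lt with heq | hlt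
  · left
    obtain ⟨f, h1, h2, h3⟩ := tied q (-ν) (unit_neg hν)
      (by rw [← sub_eq_add_neg]; exact hDq heq.symm.le hq0) hq0.le hqR
    exact joined q f (Co.refl _ _) h1 h2 h3
  · by_contra hcon
    push Not at hcon
    obtain ⟨hnj, x, hx, hxF⟩ := hcon
    obtain ⟨x', hx'F, hx'⟩ := first_far hodd hx (near_or_far hρR hq) hxF
    -- invariant
    have inv : ∀ y, Co (w0 ∩ BZ z R) q y → 0 < hg ν z y ∧ Co (ω ∩ HB ν z R) q y := by
      intro y hy
      induction hy with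
      | refl => exact ⟨hq0, Co.refl _ _⟩
      | @tail b c hab hbc ih =>
        obtain ⟨ih1, ih2⟩ := ih
        obtain ⟨h1, h2⟩ := hbc
        obtain ⟨h3, h4⟩ := mem_inter.1 h2
        have hs := hg_step (z := z) hν h1
        have hn := near_of_bz h1 h4
        have hqb : Co w0 q b := Co.mono inter_subset_left hab
        have hl0 : 0 < hl ν z (b + c) := by rw [hl_add]; omega
        have hω1 : b + c ∈ ω := by
          rcases hw _ h3 h4 hl0 with h5 | h5
          · exfalso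
            obtain ⟨f, g1, g2, g3⟩ := tied b (c - b) h1 (by rw [add_sub_cancel]; exact h5) ih1.le hn.1
            exact hnj (joined b f hqb g1 g2 g3)
          · exact h5
        have hc0 : 0 < hg ν z c := by
          rcases lt_or_ge 0 (hg ν z c) with h5 | h5
          · exact h5
          · exfalso
            exact hnj (joined c c (hqb.tail ⟨h1, h3⟩) (by omega) hn.2 (Co.refl _ _))
        exact ⟨hc0, ih2.tail ⟨h1, mem_inter.2 ⟨hω1, mem_HB.2 ⟨h4, hl0⟩⟩⟩⟩
    refine hV ⟨q, x', hq, hx'F, (inv x' hx').2, ?_⟩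
    intro y hy
    refine (inv y (Co.mono ?_ hy)).1
    intro l hl1
    exact mem_inter.2 ⟨hω hl1, (mem_HB.1 (mem_inter.1 hl1).2).1⟩

/-- **Toggle in a strip along a flat wall.** -/
theorem flat_local (hν : IsUnit4 ν) (hodd : ∀ l ∈ w0, (l.1 + l.2) % 2 = 1) (hpq : IsUnit4 (q - p))
    (hp : Near z ρ p) (hq : Near z ρ q) (hρR : ρ < R)
    (hrow : ∀ l ∈ BZ z R, hl ν z l = 0 → l ∈ w0) (hUw : U ⊆ w0) (hDC : DC ν z U)
    (hDp : hg ν z p ≤ hg ν z q → 0 < hg ν z p → p + (p - ν) ∈ U)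
    (hDq : hg ν z q ≤ hg ν z p → 0 < hg ν z q → q + (q - ν) ∈ U)
    (hω : ω ∩ HB ν z R ⊆ w0) (hw : ∀ l ∈ w0, l ∈ BZ z R → 0 < hl ν z l → l ∈ U ∨ l ∈ ω)
    (hpos : 0 < hl ν z (p + q)) (hV : ¬ V3 ν z ρ R ω) :
    Co w0 p q ∨ (∀ x, Co w0 q x → ¬ Far z R x) ∨ ∀ x, Co w0 p x → ¬ Far z R x := by
  rcases le_total (hg ν z p) (hg ν z q) with h | h
  · rcases flat_one hν hodd hpq hp hq hρR hrow hUw hDC (hDp h) hDq hω hw hpos h hV with h1 | h1
    · exact Or.inl h1
    · exact Or.inr (Or.inl h1)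
  · have hpq' : IsUnit4 (p - q) := by
      have := unit_neg hpq
      rwa [neg_sub] at this
    rcases flat_one hν hodd hpq' hq hp hρR hrow hUw hDC (hDq h) hDp hω hw
      (by rw [add_comm]; exact hpos) h hV with h1 | h1
    · exact Or.inl h1.symm
    · exact Or.inr (Or.inr h1)

end flat

/-- one arm -/
def OA (z : ℤ × ℤ) (ρ R : ℤ) (ω : Finset (ℤ × ℤ)) : Prop :=
  ∃ u v, Near z ρ u ∧ Far z R v ∧ Co ω u v

/-- **Toggle near a corner.** `K` : vertices which are joined to each other. -/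
theorem ball_local {z : ℤ × ℤ} {ρ R : ℤ} {w0 ω : Finset (ℤ × ℤ)} {p q : ℤ × ℤ} {K : ℤ × ℤ → Prop}
    (hodd : ∀ l ∈ w0, (l.1 + l.2) % 2 = 1) (hp : Near z ρ p) (hq : Near z ρ q) (hρR : ρ < R)
    (hK : ∀ x y, K x → K y → Co w0 x y)
    (hw : ∀ x y, IsUnit4 (y - x) → x + y ∈ w0 → x + y ∈ BZ z R → ¬ (Near z ρ x ∧ Near z ρ y) →
      x + y ∈ ω ∨ K x)
    (hA : ¬ OA z ρ R ω) :
    Co w0 p q ∨ (∀ x, Co w0 q x → ¬ Far z R x) ∨ ∀ x, Co w0 p x → ¬ Far z R x := by
  by_contra hcon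
  push Not at hcon
  obtain ⟨hnj, ⟨x, hx, hxF⟩, x2, hx2, hx2F⟩ := hcon
  have key : ∀ u x, Near z ρ u → Co w0 u x → Far z R x → ∃ k, K k ∧ Co w0 u k := by
    intro u x hu hux hxF
    obtain ⟨x', h1, h2⟩ := first_far hodd hux (near_or_far hρR hu) hxF
    obtain ⟨b, h3, h4, h5⟩ := co_exit h2 hu (fun h6 => near_or_far hρR h6 h1)
    by_contra hno
    push Not at hno
    apply hA
    refine ⟨b, x', h3, h1, ?_⟩
    have h6 : ∀ y, Co ((w0 ∩ BZ z R) \ BZ z ρ) b y → Co ω b y := by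
      intro y hy
      induction hy with
      | refl => exact Co.refl _ _
      | @tail c d hbc hcd ih =>
        obtain ⟨g1, g2⟩ := hcd
        obtain ⟨g3, g4⟩ := mem_sdiff.1 g2
        obtain ⟨g5, g6⟩ := mem_inter.1 g3
        refine ih.tail ⟨g1, ?_⟩
        have hnn : ¬ (Near z ρ c ∧ Near z ρ d) := by
          rintro ⟨g7, g8⟩
          apply g4
          have k1 := unit_cases g1
          have k2 := hodd _ g5
          unfold Near at g7 g8
          rw [abs_le, abs_le] at g7 g8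
          rw [mem_Bx]
          simp only [Prod.fst_add, Prod.snd_add] at k2 ⊢
          omega
        rcases hw c d g1 g5 g6 hnn with g7 | g7
        · exact g7
        · exfalso
          exact hno c g7 ((h4.mono inter_subset_left).trans
            (Co.mono (sdiff_subset.trans inter_subset_left) hbc))
    exact h6 _ h5
  obtain ⟨k1, h1, h2⟩ := key q x hq hx hxF
  obtain ⟨k2, h3, h4⟩ := key p x2 hp hx2 hx2F
  exact hnj ((h4.trans (hK _ _ h3 h1)).trans h2.symm)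

/-- decay of one arm -/
theorem OA_le : ∃ δ : ℝ, 0 < δ ∧ δ < 1 ∧ ∀ (E : Finset (ℤ × ℤ)), (∀ e ∈ E, (e.1 + e.2) % 2 = 1) →
    ∀ (z : ℤ × ℤ) (ρ R : ℤ) (k : ℕ), 1 ≤ ρ → 4 ^ k * ρ ≤ R → Pr E (OA z ρ R) ≤ (1 - δ) ^ k := by
  obtain ⟨δ, h0, h1, h⟩ := open_arm_decay
  refine ⟨δ, h0, h1, fun E hE z ρ R k hρ hR => ?_⟩
  refine le_trans (Pr_mono fun ω _ => ?_) (h E hE z ρ hρ k)
  rintro ⟨u, v, h2, h3, h4⟩
  unfold Near at h2
  unfold Far at h3
  exact ⟨u, v, h2.1, h2.2, h3.imp (fun h => hR.trans h) (fun h => hR.trans h), h4⟩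

end Pool.Agent.H33.Q1
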