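import Mathlib
import Pool.Agent.H33.Q1.A.Local

set_option autoImplicit false
open Finset

/-! # Chains of invisible toggles

The labels of `F` are forced one after the other (`O` = the opened ones) in the order of a rank. A toggle
near a flat wall (`UpW`, `LowW`) or near a corner (`BallW`) is invisible from the box unless there are
three arms, resp. one arm. -/

namespace Pool.Agent.H33.Q1

open Pool.Agent.H75.Perc hiding WL CT hh
open Pool.Agent.H75.TwoArm Pool.Agent.H75.Four Pool.Agent.H69.Q1 Pool.Agent.Q1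
open Pool.Agent.H60.Q1 Pool.Agent.H20.Q1
open Pool.Agent.Q1.Env (flat InBx)

/-- partially flattened configuration -/
def cT (O T ω : Finset (ℤ × ℤ)) : Finset (ℤ × ℤ) := (ω \ T) ∪ (O ∩ T)

lemma mem_cT {O T ω : Finset (ℤ × ℤ)} {l : ℤ × ℤ} :
    l ∈ cT O T ω ↔ (l ∈ ω ∧ l ∉ T) ∨ (l ∈ O ∧ l ∈ T) := by
  unfold cT
  rw [mem_union, mem_sdiff, mem_inter]

lemma cT_empty (O ω : Finset (ℤ × ℤ)) : cT O ∅ ω = ω := by
  unfold cT; simp

lemma cT_full {O F : Finset (ℤ × ℤ)} (hO : O ⊆ F) (ω : Finset (ℤ × ℤ)) : cT O F ω = flat F O ω := by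
  unfold cT flat
  rw [inter_eq_left.2 hO]

lemma cT_insert {O T ω : Finset (ℤ × ℤ)} {e : ℤ × ℤ} (he : e ∉ T) :
    cT O (insert e T) ω = if e ∈ O then insert e ((cT O T ω).erase e) else (cT O T ω).erase e := by
  split_ifs with h
  · ext l
    rw [mem_insert, mem_erase, mem_cT, mem_cT, mem_insert]
    by_cases hl : l = e
    · subst hl; tauto
    · tauto
  · ext l
    rw [mem_erase, mem_cT, mem_cT, mem_insert]
    by_cases hl : l = e
    · subst hl; tauto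
    · tauto

lemma mem_cT_self {O T ω : Finset (ℤ × ℤ)} {e : ℤ × ℤ} (he : e ∉ T) : e ∈ cT O T ω ↔ e ∈ ω := by
  rw [mem_cT]; tauto

/-- Induction over the rank. -/
theorem chain_rank {α : Type*} {R : α → α → Prop} {F : Finset (ℤ × ℤ)} (rk : ℤ × ℤ → ℕ)
    (c : Finset (ℤ × ℤ) → α)
    (h : ∀ T ⊆ F, ∀ e ∈ F, e ∉ T → (∀ e' ∈ F, rk e' < rk e → e' ∈ T) → (∀ e' ∈ T, rk e' ≤ rk e) →
      Relation.ReflTransGen R (c T) (c (insert e T))) :
    Relation.ReflTransGen R (c ∅) (c F) := by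
  classical
  have key : ∀ n ≤ F.card, ∃ T ⊆ F, T.card = n ∧ (∀ e ∈ T, ∀ e' ∈ F, rk e' < rk e → e' ∈ T) ∧
      Relation.ReflTransGen R (c ∅) (c T) := by
    intro n
    induction n with
    | zero => intro _; exact ⟨∅, empty_subset _, rfl, fun e he => absurd he (notMem_empty e), .refl⟩
    | succ n ih =>
      intro hn
      obtain ⟨T, hT, hc, hini, hch⟩ := ih (by omega)
      have hne : (F \ T).Nonempty := by
        rw [sdiff_nonempty]
        intro hsub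
        have := card_le_card hsub
        omega
      obtain ⟨e, he, hmin⟩ := exists_min_image (F \ T) rk hne
      obtain ⟨heF, heT⟩ := mem_sdiff.1 he
      have h1 : ∀ e' ∈ F, rk e' < rk e → e' ∈ T := by
        intro e' he' hlt
        by_contra hcon
        have := hmin e' (mem_sdiff.2 ⟨he', hcon⟩)
        omega
      have h2 : ∀ e' ∈ T, rk e' ≤ rk e := by
        intro e' he'
        by_contra hcon
        push Not at hcon
        exact heT (hini e' he' e heF hcon)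
      refine ⟨insert e T, insert_subset heF hT, by rw [card_insert_of_notMem heT, hc], ?_,
        hch.trans (h T hT e heF heT h1 h2)⟩
      intro x hx e' he' hlt
      rcases mem_insert.1 hx with rfl | hx
      · exact mem_insert_of_mem (h1 e' he' hlt)
      · exact mem_insert_of_mem (hini x hx e' he' hlt)
  obtain ⟨T, hT, hc, -, hch⟩ := key F.card le_rfl
  rwa [eq_of_subset_of_card_le hT (by rw [hc])] at hch

/-- flat wired wall: everything in the box is above the wall or closed to `F`, the row is wired -/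
structure UpW (E W F O : Finset (ℤ × ℤ)) (rk : ℤ × ℤ → ℕ) (ν z : ℤ × ℤ) (R : ℤ) : Prop where
  unit : IsUnit4 ν
  row : ∀ l ∈ BZ z R, hl ν z l = 0 → l ∈ W
  pos : ∀ l ∈ BZ z R, 0 < hl ν z l → l ∈ E ∧ l ∉ W
  neg : ∀ l ∈ BZ z R, hl ν z l ≤ 0 → l ∉ E
  FO : ∀ l ∈ BZ z R, l ∈ F → l ∈ O
  down : ∀ y t, IsUnit4 t → y + (y + t) ∈ BZ z R → 0 < hg ν z y → y + (y + t) ∈ F →
    y + (y - ν) ∈ F
  rk : ∀ l ∈ BZ z R, l ∈ F → (rk l : ℤ) = hl ν z l

/-- flat free wall; `z` is an outer face, `l + (1, 1)` the dual label of `l` -/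
structure LowW (E W F O : Finset (ℤ × ℤ)) (rk : ℤ × ℤ → ℕ) (ν z : ℤ × ℤ) (R : ℤ) : Prop where
  unit : IsUnit4 ν
  row : ∀ l, l + (1, 1) ∈ BZ z R → hl ν z (l + (1, 1)) = 0 → l ∉ E ∧ l ∉ W
  pos : ∀ l, l + (1, 1) ∈ BZ z R → 0 < hl ν z (l + (1, 1)) → l ∈ E ∧ l ∉ W
  neg : ∀ l, l + (1, 1) ∈ BZ z R → hl ν z (l + (1, 1)) ≤ 0 → l ∉ E
  FO : ∀ l, l + (1, 1) ∈ BZ z R → l ∈ F → l ∉ O
  down : ∀ y t, IsUnit4 t → y + (y + t) ∈ BZ z R → 0 < hg ν z y → y + (y + t) - (1, 1) ∈ F →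
    y + (y - ν) - (1, 1) ∈ F
  rk : ∀ l, l + (1, 1) ∈ BZ z R → l ∈ F → (rk l : ℤ) = hl ν z (l + (1, 1))

/-- corner: the walls and the strips in the box are joined -/
structure BallW (W F O : Finset (ℤ × ℤ)) (rk : ℤ × ℤ → ℕ) (M : ℕ) (z : ℤ × ℤ) (ρ R : ℤ) : Prop where
  conn : ∀ x y x' y', IsUnit4 (y - x) → IsUnit4 (y' - x') →
    x + y ∈ ((O.filter fun l => rk l < M) ∪ W) ∩ BZ z R →
    x' + y' ∈ ((O.filter fun l => rk l < M) ∪ W) ∩ BZ z R →
    Co (((O.filter fun l => rk l < M) ∪ W) ∩ BZ z R) x x'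
  near : ∀ x y, IsUnit4 (y - x) → x + y ∈ F → x + y ∈ BZ z R → M ≤ rk (x + y) →
    Near z ρ x ∧ Near z ρ y

/-- the boxes are apart -/
def Sep (a b c d a' b' c' d' : ℤ) : Prop := b + 2 ≤ a' ∨ b' + 2 ≤ a ∨ d + 2 ≤ c' ∨ d' + 2 ≤ c

lemma fi_vx (z : ℤ × ℤ) : ((vx z).1 ≤ (fi z).1 ∧ (fi z).1 ≤ (vx z).1 + 1) ∧
    ((vx z).2 ≤ (fi z).2 ∧ (fi z).2 ≤ (vx z).2 + 1) := by
  unfold fi vx
  simp only
  omega

lemma Sep.corner {a b c d a' b' c' d' : ℤ} (h : Sep a b c d a' b' c' d') {z : ℤ × ℤ}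
    (hz : inB a b c d (vx z)) : ¬ InF a' b' c' d' (fi z) ∧ ¬ inB a' b' c' d' (vx z) := by
  have := fi_vx z
  unfold Sep at h
  unfold inB at hz ⊢
  unfold InF
  omega

lemma Sep.disj {a b c d a' b' c' d' : ℤ} (h : Sep a b c d a' b' c' d') {l : ℤ × ℤ}
    (h1 : l ∈ Bx a b c d) (h2 : l ∈ Bx a' b' c' d') : False := by
  unfold Sep at h
  rw [mem_Bx] at h1 h2
  omega

section step

variable {X : Env} {W F O : Finset (ℤ × ℤ)} {a b c d : ℤ} {rk : ℤ × ℤ → ℕ}

/-- `r` is on the loop of the root in every configuration -/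
def Rt (X : Env) (W : Finset (ℤ × ℤ)) (r : ℤ × ℤ) : Prop :=
  ∀ w : Finset (ℤ × ℤ), W ⊆ w → w ⊆ X.E ∪ W → InOrb (nx w) X.c0 r

lemma Rt.iff {r : ℤ × ℤ} (h : Rt X W r) {w : Finset (ℤ × ℤ)} (h1 : W ⊆ w) (h2 : w ⊆ X.E ∪ W)
    {z : ℤ × ℤ} : InOrb (nx w) X.c0 z ↔ InOrb (nx w) r z :=
  ⟨fun h3 => inOrb_trans (inOrb_symm (h w h1 h2)) h3, fun h3 => inOrb_trans (h w h1 h2) h3⟩

/-- invisible toggle -/
def Inv (X : Env) (W O : Finset (ℤ × ℤ)) (a b c d : ℤ) (T ω : Finset (ℤ × ℤ)) (e : ℤ × ℤ) : Prop :=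
  ∀ η ⊆ X.E ∩ Bx a b c d, ∀ z, InBx a b c d z →
    (InOrb (nx (η ∪ (cT O T ω).erase e ∪ W)) X.c0 z ↔
      InOrb (nx (insert e (η ∪ (cT O T ω).erase e ∪ W))) X.c0 z)

lemma step_of_inv (hX : X.PlaneLike W) (hF : F ⊆ X.E \ Bx a b c d)
    {T ω : Finset (ℤ × ℤ)} (hT : T ⊆ F) (hω : ω ⊆ X.E \ Bx a b c d) {e : ℤ × ℤ} (he : e ∈ F)
    (heT : e ∉ T) (h : ((e ∈ O ∧ e ∉ ω) ∨ (e ∉ O ∧ e ∈ ω)) → Inv X W O a b c d T ω e) :
    Relation.ReflTransGen (X.StepEq a b c d) (cT O T ω) (cT O (insert e T) ω) := by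
  have hc : cT O T ω ⊆ X.E \ Bx a b c d := by
    intro l hl
    rcases mem_cT.1 hl with h1 | h1
    · exact hω h1.1
    · exact hF (hT h1.2)
  have hc1 : (cT O T ω).erase e ⊆ X.E \ Bx a b c d := (erase_subset _ _).trans hc
  have hc2 : insert e ((cT O T ω).erase e) ⊆ X.E \ Bx a b c d := insert_subset (hF he) hc1
  have eq2 : ∀ η : Finset (ℤ × ℤ), insert e (η ∪ (cT O T ω).erase e ∪ W) =
      η ∪ insert e ((cT O T ω).erase e) ∪ W := by
    intro η
    ext l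
    simp only [mem_insert, mem_union]
    tauto
  have hstep : ((e ∈ O ∧ e ∉ ω) ∨ (e ∉ O ∧ e ∈ ω)) →
      X.StepEq a b c d ((cT O T ω).erase e) (insert e ((cT O T ω).erase e)) ∧
      X.StepEq a b c d (insert e ((cT O T ω).erase e)) ((cT O T ω).erase e) := by
    intro h0
    have hi := h h0
    have hon : ∀ η ⊆ X.E ∩ Bx a b c d, ∀ z, InBx a b c d z →
        (X.On (η ∪ (cT O T ω).erase e) z ↔ X.On (η ∪ insert e ((cT O T ω).erase e)) z) := by
      intro η hη z hz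
      have hηE : η ⊆ X.E := hη.trans inter_subset_left
      rw [on_inOrb hX (union_subset hηE (hc1.trans sdiff_subset)),
        on_inOrb hX (union_subset hηE (hc2.trans sdiff_subset)), ← eq2]
      exact hi η hη z hz
    exact ⟨⟨hc1, hc2, Or.inl (subset_insert _ _), hon⟩,
      ⟨hc2, hc1, Or.inr (subset_insert _ _), fun η hη z hz => (hon η hη z hz).symm⟩⟩
  rw [cT_insert heT]
  by_cases heO : e ∈ O
  · rw [if_pos heO]
    by_cases heω : e ∈ ω
    · rw [insert_erase ((mem_cT_self heT).2 heω)]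
    · have h1 : e ∉ cT O T ω := fun h2 => heω ((mem_cT_self heT).1 h2)
      have h2 := (hstep (Or.inl ⟨heO, heω⟩)).1
      conv_lhs => rw [← erase_eq_of_notMem h1]
      exact Relation.ReflTransGen.single h2
  · rw [if_neg heO]
    by_cases heω : e ∈ ω
    · have h1 : e ∈ cT O T ω := (mem_cT_self heT).2 heω
      have h2 := (hstep (Or.inr ⟨heO, heω⟩)).2
      conv_lhs => rw [← insert_erase h1]
      exact Relation.ReflTransGen.single h2
    · rw [erase_eq_of_notMem (fun h2 => heω ((mem_cT_self heT).1 h2))]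

lemma int4_of_not_far {z x : ℤ × ℤ} {R : ℤ} (h : ¬ Far z R x) :
    Int4 (z.1 - R) (z.1 + R) (z.2 - R) (z.2 + R) x := by
  unfold Far at h
  rw [le_abs, le_abs] at h
  unfold Int4
  omega

lemma bz_of_near {z x y : ℤ × ℤ} {ρ : ℤ} (h : IsUnit4 (y - x)) (hx : Near z ρ x)
    (hy : Near z ρ y) : x + y ∈ BZ z ρ := by
  have h1 := unit_cases h
  unfold Near at hx hy
  rw [abs_le, abs_le] at hx hy
  rw [mem_Bx]
  simp only [Prod.fst_add, Prod.snd_add]
  omega

lemma bz_mono {z : ℤ × ℤ} {ρ R : ℤ} (h : ρ ≤ R) : BZ z ρ ⊆ BZ z R :=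
  Bx_sub (by omega) (by omega) (by omega) (by omega)

/-- common part of the three cases: vertex form in a box `BZ z R` -/
lemma inv_of_box (hWo : ∀ l ∈ W, (l.1 + l.2) % 2 = 1) (hEW : Disjoint X.E W)
    (hF : F ⊆ X.E \ Bx a b c d)
    {T ω : Finset (ℤ × ℤ)} (hT : T ⊆ F) (hω : ω ⊆ X.E \ Bx a b c d) {e : ℤ × ℤ} (he : e ∈ F)
    {z : ℤ × ℤ} {R : ℤ} (heB : e ∈ BZ z R)
    (hsep : Sep a b c d (z.1 - R) (z.1 + R) (z.2 - R) (z.2 + R)) {r : ℤ × ℤ} (hr : Rt X W r)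
    (hr1 : ¬ InF (z.1 - R) (z.1 + R) (z.2 - R) (z.2 + R) (fi r)) (hr2 : ¬ Int4 (z.1 - R) (z.1 + R)
      (z.2 - R) (z.2 + R) (vx r))
    (h : ∀ η ⊆ X.E ∩ Bx a b c d,
      Co ((η ∪ (cT O T ω).erase e ∪ W) ∩ BZ z R) (eu e) (ev e) ∨
      (∀ x, Co ((η ∪ (cT O T ω).erase e ∪ W) ∩ BZ z R) (ev e) x → ¬ Far z R x) ∨
      (∀ x, Co ((η ∪ (cT O T ω).erase e ∪ W) ∩ BZ z R) (eu e) x → ¬ Far z R x)) :
    Inv X W O a b c d T ω e := by
  intro η hη y hy
  have heE := (mem_sdiff.1 (hF he)).1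
  have ho : (e.1 + e.2) % 2 = 1 := X.odd e heE
  set w := η ∪ (cT O T ω).erase e ∪ W with hw
  have hcE : (cT O T ω).erase e ⊆ X.E := by
    intro l hl
    rcases mem_cT.1 (mem_erase.1 hl).2 with h1 | h1
    · exact (mem_sdiff.1 (hω h1.1)).1
    · exact (mem_sdiff.1 (hF (hT h1.2))).1
  have hWw : W ⊆ w := subset_union_right
  have hwE : w ⊆ X.E ∪ W :=
    union_subset_union_left (union_subset (hη.trans inter_subset_left) hcE)
  have hwE' : insert e w ⊆ X.E ∪ W := insert_subset (mem_union_left _ heE) hwE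
  have hodd : ∀ l ∈ w, (l.1 + l.2) % 2 = 1 := by
    intro l hl
    rcases mem_union.1 (hwE hl) with h1 | h1
    · exact X.odd l h1
    · exact hWo l h1
  have hew : e ∉ w := by
    rw [hw, mem_union, mem_union, not_or, not_or]
    refine ⟨⟨fun h1 => ?_, notMem_erase e _⟩, fun h1 => disjoint_left.1 hEW heE h1⟩
    exact (mem_sdiff.1 (hF he)).2 (mem_inter.1 (hη h1)).2
  rw [hr.iff hWw hwE, hr.iff (hWw.trans (subset_insert _ _)) hwE']
  obtain ⟨h1, h2⟩ := hsep.corner hy.1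
  refine toggle_box hodd ho hew heB hr1 h1 hr2 (fun h3 => h2 ?_) ?_
  · unfold Int4 at h3
    unfold inB
    omega
  · rcases h η hη with h3 | h3 | h3
    · exact Or.inl h3
    · exact Or.inr (Or.inl fun x hx => int4_of_not_far (h3 x hx))
    · exact Or.inr (Or.inr fun x hx => int4_of_not_far (h3 x hx))

/-- **Toggle at a wired flat wall.** -/
theorem inv_up (hWo : ∀ l ∈ W, (l.1 + l.2) % 2 = 1) (hEW : Disjoint X.E W)
    (hF : F ⊆ X.E \ Bx a b c d)
    {T ω : Finset (ℤ × ℤ)} (hT : T ⊆ F) (hω : ω ⊆ X.E \ Bx a b c d) {e : ℤ × ℤ} (he : e ∈ F)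
    (heT : e ∉ T) (hlow : ∀ e' ∈ F, rk e' < rk e → e' ∈ T) (hup : ∀ e' ∈ T, rk e' ≤ rk e)
    {ν z : ℤ × ℤ} {ρ R : ℤ} (hU : UpW X.E W F O rk ν z R) (hρR : ρ < R)
    (hu : Near z ρ (eu e)) (hv : Near z ρ (ev e)) (hV : ¬ V3 ν z ρ R ω) (heω : e ∉ ω)
    (hsep : Sep a b c d (z.1 - R) (z.1 + R) (z.2 - R) (z.2 + R)) {r : ℤ × ℤ} (hr : Rt X W r)
    (hr1 : ¬ InF (z.1 - R) (z.1 + R) (z.2 - R) (z.2 + R) (fi r)) (hr2 : ¬ Int4 (z.1 - R) (z.1 + R)
      (z.2 - R) (z.2 + R) (vx r)) :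
    Inv X W O a b c d T ω e := by
  have heE := (mem_sdiff.1 (hF he)).1
  have ho : (e.1 + e.2) % 2 = 1 := X.odd e heE
  have hee := Pool.Agent.H75.Four.PivAux.eu_ev ho
  have heR : e ∈ BZ z R := by
    have := bz_mono (z := z) hρR.le (bz_of_near hee.1 hu hv)
    rwa [hee.2] at this
  refine inv_of_box hWo hEW hF hT hω he heR hsep hr hr1 hr2 ?_
  intro η hη
  set w := η ∪ (cT O T ω).erase e ∪ W with hw
  have hTm : ∀ l ∈ T, l ∈ BZ z R → l ∈ w := by
    intro l hl hlR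
    rw [hw, mem_union, mem_union, mem_erase]
    refine Or.inl (Or.inr ⟨fun h1 => heT (h1 ▸ hl), mem_cT.2 (Or.inr ⟨hU.FO l hlR (hT hl), hl⟩)⟩)
  have hηR : ∀ l ∈ η, l ∉ BZ z R := fun l hl h1 => hsep.disj (mem_inter.1 (hη hl)).2 h1
  have hodd : ∀ l ∈ w ∩ BZ z R, (l.1 + l.2) % 2 = 1 := fun l hl => (mem_Bx.1 (mem_inter.1 hl).2).2.2
  have hposF : ∀ l ∈ F, l ∈ BZ z R → 0 < hl ν z l := by
    intro l hl hlR
    by_contra hcon
    exact hU.neg l hlR (by omega) (mem_sdiff.1 (hF hl)).1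
  have hrke : (rk e : ℤ) = hg ν z (eu e) + hg ν z (ev e) := by
    rw [hU.rk e heR he]
    conv_lhs => rw [← hee.2]
    rw [hl_add]
  have hstep := hg_step (z := z) hU.unit hee.1
  -- the label below
  have hbelow : ∀ y t, IsUnit4 t → y + (y + t) ∈ F → y + (y + t) ∈ BZ z R → 0 < hg ν z y →
      rk (y + (y + t)) ≤ rk e → (rk (y + (y + t)) = rk e → 0 ≤ hg ν z (y + t) - hg ν z y ∨
        y + (y + t) ∈ T) → y + (y - ν) ∈ T ∩ BZ z R := by
    intro y t ht h1 h2 h3 h4 h5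
    have hyR := (near_of_bz (x := y) (y := y + t) (by rwa [add_sub_cancel_left]) h2).1
    have h6 : y + (y - ν) ∈ BZ z R := bz_of_near (by
      rw [sub_sub_cancel_left]; exact unit_neg hU.unit) hyR (foot_near hU.unit hyR h3)
    have h7 := hU.down y t ht h2 h3 h1
    have h8 := hU.rk _ h6 h7
    have h9 := hU.rk _ h2 h1
    rw [hl_add, hg_sub hU.unit] at h8
    rw [hl_add] at h9
    have h10 := hg_step (z := z) (x := y) (y := y + t) hU.unit (by rwa [add_sub_cancel_left])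
    refine mem_inter.2 ⟨?_, h6⟩
    by_cases hlt : rk (y + (y - ν)) < rk e
    · exact hlow _ h7 hlt
    · -- then it is the label itself
      have h11 : rk (y + (y + t)) = rk e := by omega
      rcases h5 h11 with h12 | h12
      · omega
      · have h13 : y + (y + t) = y + (y - ν) := by
          have h14 : hg ν z (y + t) = hg ν z y - 1 := by omega
          have h15 : t = -ν := by
            unfold hg at h14
            rcases ht with rfl | rfl | rfl | rfl <;> rcases hU.unit with h | h | h | h <;>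
              rw [h] at h14 ⊢ <;> simp only [Prod.fst_add, Prod.snd_add] at h14 <;>
              first
              | (exfalso; omega)
              | simp
          rw [h15, ← sub_eq_add_neg]
        rwa [← h13]
  refine flat_local (ρ := ρ) (ω := ω) (U := T ∩ BZ z R) hU.unit hodd hee.1 hu hv hρR ?_ ?_ ?_ ?_ ?_
    ?_ ?_ ?_ hV
  · intro l h1 h2
    exact mem_inter.2 ⟨by rw [hw]; exact mem_union_right _ (hU.row l h1 h2), h1⟩
  · intro l h1
    obtain ⟨h2, h3⟩ := mem_inter.1 h1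
    exact mem_inter.2 ⟨hTm l h2 h3, h3⟩
  · intro y t ht h1 h2
    obtain ⟨h3, h4⟩ := mem_inter.1 h1
    exact hbelow y t ht (hT h3) h4 h2 (hup _ h3) (fun _ => Or.inr h3)
  · intro h1 h2
    have h3 : eu e + (eu e + (ev e - eu e)) = e := by rw [add_sub_cancel]; exact hee.2
    exact hbelow (eu e) (ev e - eu e) hee.1 (by rw [h3]; exact he) (by rw [h3]; exact heR) h2
      (by rw [h3]) (fun _ => Or.inl (by rw [add_sub_cancel]; omega))
  · intro h1 h2
    have h3 : ev e + (ev e + (eu e - ev e)) = e := by rw [add_sub_cancel, add_comm]; exact hee.2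
    exact hbelow (ev e) (eu e - ev e) (by have := unit_neg hee.1; rwa [neg_sub] at this)
      (by rw [h3]; exact he) (by rw [h3]; exact heR) h2
      (by rw [h3]) (fun _ => Or.inl (by rw [add_sub_cancel]; omega))
  · intro l h1
    obtain ⟨h2, h3⟩ := mem_inter.1 h1
    have h4 := (mem_HB.1 h3).1
    refine mem_inter.2 ⟨?_, h4⟩
    by_cases hlT : l ∈ T
    · exact hTm l hlT h4
    · rw [hw, mem_union, mem_union, mem_erase]
      exact Or.inl (Or.inr ⟨fun h5 => heω (h5 ▸ h2), mem_cT.2 (Or.inl ⟨h2, hlT⟩)⟩)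
  · intro l h1 h2 h3
    obtain ⟨h4, -⟩ := mem_inter.1 h1
    rw [hw, mem_union, mem_union] at h4
    rcases h4 with (h4 | h4) | h4
    · exact absurd h2 (hηR l h4)
    · rcases mem_cT.1 (mem_erase.1 h4).2 with h5 | h5
      · exact Or.inr h5.1
      · exact Or.inl (mem_inter.2 ⟨h5.2, h2⟩)
    · exact absurd h4 (hU.pos l h2 h3).2
  · rw [hl_add, ← hrke]
    have := hposF e he heR
    rw [← hU.rk e heR he] at this
    exact this

/-- **Toggle near a corner.** -/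
theorem inv_ball (hWo : ∀ l ∈ W, (l.1 + l.2) % 2 = 1) (hEW : Disjoint X.E W)
    (hF : F ⊆ X.E \ Bx a b c d) (hO : O ⊆ F)
    {T ω : Finset (ℤ × ℤ)} (hT : T ⊆ F) (hω : ω ⊆ X.E \ Bx a b c d) {e : ℤ × ℤ} (he : e ∈ F)
    {M : ℕ} (hlow : ∀ e' ∈ F, rk e' < M → e' ∈ T) (hrke : M ≤ rk e)
    {z : ℤ × ℤ} {ρ R : ℤ} (hU : BallW W F O rk M z ρ R) (hρR : ρ < R)
    (hu : Near z ρ (eu e)) (hv : Near z ρ (ev e)) (hV : ¬ OA z ρ R ω)
    (hsep : Sep a b c d (z.1 - R) (z.1 + R) (z.2 - R) (z.2 + R)) {r : ℤ × ℤ} (hr : Rt X W r)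
    (hr1 : ¬ InF (z.1 - R) (z.1 + R) (z.2 - R) (z.2 + R) (fi r)) (hr2 : ¬ Int4 (z.1 - R) (z.1 + R)
      (z.2 - R) (z.2 + R) (vx r)) :
    Inv X W O a b c d T ω e := by
  have heE := (mem_sdiff.1 (hF he)).1
  have ho : (e.1 + e.2) % 2 = 1 := X.odd e heE
  have hee := Pool.Agent.H75.Four.PivAux.eu_ev ho
  have heR : e ∈ BZ z R := by
    have := bz_mono (z := z) hρR.le (bz_of_near hee.1 hu hv)
    rwa [hee.2] at this
  refine inv_of_box hWo hEW hF hT hω he heR hsep hr hr1 hr2 ?_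
  intro η hη
  set w := η ∪ (cT O T ω).erase e ∪ W with hw
  set J := ((O.filter fun l => rk l < M) ∪ W) ∩ BZ z R with hJ
  have hηR : ∀ l ∈ η, l ∉ BZ z R := fun l hl h1 => hsep.disj (mem_inter.1 (hη hl)).2 h1
  have hodd : ∀ l ∈ w ∩ BZ z R, (l.1 + l.2) % 2 = 1 := fun l hl => (mem_Bx.1 (mem_inter.1 hl).2).2.2
  have hJw : J ⊆ w ∩ BZ z R := by
    intro l hl
    obtain ⟨h1, h2⟩ := mem_inter.1 hl
    refine mem_inter.2 ⟨?_, h2⟩
    rw [hw]
    rcases mem_union.1 h1 with h3 | h3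
    · obtain ⟨h4, h5⟩ := mem_filter.1 h3
      rw [mem_union, mem_union, mem_erase]
      refine Or.inl (Or.inr ⟨fun h6 => ?_, mem_cT.2 (Or.inr ⟨h4, hlow l (hO h4) h5⟩)⟩)
      rw [h6] at h5
      omega
    · exact mem_union_right _ h3
  refine ball_local (ρ := ρ) (ω := ω) (K := fun x => ∃ y, IsUnit4 (y - x) ∧ x + y ∈ J) hodd hu hv
    hρR ?_ ?_ hV
  · rintro x y ⟨x', h1, h2⟩ ⟨y', h3, h4⟩
    exact (hU.conn x x' y y' h1 h3 h2 h4).mono hJw
  · intro x y h1 h2 h3 h4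
    obtain ⟨h5, -⟩ := mem_inter.1 h2
    rw [hw, mem_union, mem_union] at h5
    rcases h5 with (h5 | h5) | h5
    · exact absurd h3 (hηR _ h5)
    · rcases mem_cT.1 (mem_erase.1 h5).2 with h6 | h6
      · exact Or.inl h6.1
      · right
        by_cases h7 : rk (x + y) < M
        · exact ⟨y, h1, mem_inter.2 ⟨mem_union_left _ (mem_filter.2 ⟨h6.1, h7⟩), h3⟩⟩
        · exact absurd (hU.near x y h1 (hT h6.2) h3 (by omega)) h4
    · exact Or.inr ⟨y, h1, mem_inter.2 ⟨mem_union_right _ h5, h3⟩⟩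

lemma faces_e {e : ℤ × ℤ} (ho : (e.1 + e.2) % 2 = 1) :
    IsUnit4 (fi (zv e) - fi (zu e)) ∧ fi (zu e) + fi (zv e) = e + (1, 1) := by
  obtain ⟨x, y⟩ := e
  simp only at ho
  unfold fi zu zv IsUnit4
  by_cases h : x % 2 = 0
  · simp only [h, if_true, Prod.mk_sub_mk, Prod.mk_add_mk, Prod.mk.injEq]
    omega
  · simp only [h, if_false, Prod.mk_sub_mk, Prod.mk_add_mk, Prod.mk.injEq]
    omega

lemma mem_du {E ω : Finset (ℤ × ℤ)} {l : ℤ × ℤ} : l + (1, 1) ∈ du E ω ↔ l ∈ E ∧ l ∉ ω := by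
  unfold du
  rw [mem_map, ← mem_sdiff]
  constructor
  · rintro ⟨m, h1, h2⟩
    have : m = l := by
      have e1 := congrArg Prod.fst h2
      have e2 := congrArg Prod.snd h2
      simp only [sh1, Function.Embedding.coeFn_mk, Prod.fst_add, Prod.snd_add] at e1 e2
      exact Prod.ext (by omega) (by omega)
    rwa [← this]
  · intro h
    exact ⟨l, h, rfl⟩

/-- **Toggle at a free flat wall.** -/
theorem inv_low (hEW : Disjoint X.E W)
    (hF : F ⊆ X.E \ Bx a b c d) {T ω : Finset (ℤ × ℤ)} (hT : T ⊆ F)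
    (hω : ω ⊆ X.E \ Bx a b c d) {e : ℤ × ℤ} (he : e ∈ F)
    (heT : e ∉ T) (hlow : ∀ e' ∈ F, rk e' < rk e → e' ∈ T) (hup : ∀ e' ∈ T, rk e' ≤ rk e)
    {ν z : ℤ × ℤ} {ρ R : ℤ} (hU : LowW X.E W F O rk ν z R) (hρR : ρ < R)
    (hu : Near z ρ (fi (zu e))) (hv : Near z ρ (fi (zv e)))
    (hV : ¬ V3 ν z ρ R (du (X.E \ Bx a b c d) ω)) (heω : e ∈ ω)
    (hsep : Sep a b c d (z.1 - R - 1) (z.1 + R) (z.2 - R - 1) (z.2 + R)) {r : ℤ × ℤ} (hr : Rt X W r)
    (hr1 : ¬ inB (z.1 - R - 1) (z.1 + R) (z.2 - R - 1) (z.2 + R) (vx r))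
    (hr2 : ¬ InF (z.1 - R - 1) (z.1 + R) (z.2 - R - 1) (z.2 + R) (fi r)) :
    Inv X W O a b c d T ω e := by
  have heE := (mem_sdiff.1 (hF he)).1
  have ho : (e.1 + e.2) % 2 = 1 := X.odd e heE
  have hee := faces_e ho
  have heR : e + (1, 1) ∈ BZ z R := by
    have := bz_mono (z := z) hρR.le (bz_of_near hee.1 hu hv)
    rwa [hee.2] at this
  set B1 := Bx (z.1 - R - 1) (z.1 + R) (z.2 - R - 1) (z.2 + R) with hB1
  -- dual labels of the dual box
  have hbz : ∀ l : ℤ × ℤ, l + (1, 1) ∈ BZ z R → l ∈ B1 := by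
    intro l h1
    rw [mem_Bx] at h1
    rw [hB1, mem_Bx]
    simp only [Prod.fst_add, Prod.snd_add] at h1
    omega
  intro η hη y hy
  set w := η ∪ (cT O T ω).erase e ∪ W with hw
  have hcE : (cT O T ω).erase e ⊆ X.E := by
    intro l hl
    rcases mem_cT.1 (mem_erase.1 hl).2 with h1 | h1
    · exact (mem_sdiff.1 (hω h1.1)).1
    · exact (mem_sdiff.1 (hF (hT h1.2))).1
  have hWw : W ⊆ w := subset_union_right
  have hwE : w ⊆ X.E ∪ W :=
    union_subset_union_left (union_subset (hη.trans inter_subset_left) hcE)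
  have hwE' : insert e w ⊆ X.E ∪ W := insert_subset (mem_union_left _ heE) hwE
  have hew : e ∉ w := by
    rw [hw, mem_union, mem_union, not_or, not_or]
    refine ⟨⟨fun h1 => ?_, notMem_erase e _⟩, fun h1 => disjoint_left.1 hEW heE h1⟩
    exact (mem_sdiff.1 (hF he)).2 (mem_inter.1 (hη h1)).2
  have hηR : ∀ l ∈ η, l + (1, 1) ∉ BZ z R := fun l hl h1 =>
    hsep.disj (mem_inter.1 (hη hl)).2 (hbz l h1)
  have hsh : ∀ m : ℤ × ℤ, m - (1, 1) + (1, 1) = m := fun m => sub_add_cancel _ _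
  -- closed toggled labels
  have hTm : ∀ l ∈ T, l + (1, 1) ∈ BZ z R → l ∉ insert e w := by
    intro l hl hlR h1
    rcases mem_insert.1 h1 with h1 | h1
    · exact heT (h1 ▸ hl)
    · rw [hw, mem_union, mem_union] at h1
      rcases h1 with (h1 | h1) | h1
      · exact hηR l h1 hlR
      · rcases mem_cT.1 (mem_erase.1 h1).2 with h2 | h2
        · exact h2.2 hl
        · exact hU.FO l hlR (hT hl) h2.1
      · exact disjoint_left.1 hEW (mem_sdiff.1 (hF (hT hl))).1 h1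
  have hposF : ∀ l ∈ F, l + (1, 1) ∈ BZ z R → 0 < hl ν z (l + (1, 1)) := by
    intro l hl hlR
    by_contra hcon
    exact hU.neg l hlR (by omega) (mem_sdiff.1 (hF hl)).1
  have hrke : (rk e : ℤ) = hg ν z (fi (zu e)) + hg ν z (fi (zv e)) := by
    rw [hU.rk e heR he, ← hee.2, hl_add]
  have hstep := hg_step (z := z) hU.unit hee.1
  set U : Finset (ℤ × ℤ) := (T.map sh1) ∩ BZ z R with hUdef
  have hmU : ∀ m : ℤ × ℤ, m ∈ U ↔ m - (1, 1) ∈ T ∧ m ∈ BZ z R := by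
    intro m
    rw [hUdef, mem_inter, mem_map]
    constructor
    · rintro ⟨⟨l, h1, h2⟩, h3⟩
      refine ⟨?_, h3⟩
      rw [← h2]
      have : sh1 l - (1, 1) = l := by
        refine Prod.ext ?_ ?_ <;> simp [sh1]
      rwa [this]
    · rintro ⟨h1, h2⟩
      refine ⟨⟨m - (1, 1), h1, ?_⟩, h2⟩
      refine Prod.ext ?_ ?_ <;> simp [sh1]
  have hbelow : ∀ y t, IsUnit4 t → y + (y + t) - (1, 1) ∈ F → y + (y + t) ∈ BZ z R → 0 < hg ν z y →
      rk (y + (y + t) - (1, 1)) ≤ rk e → (rk (y + (y + t) - (1, 1)) = rk e →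
        0 ≤ hg ν z (y + t) - hg ν z y ∨ y + (y + t) - (1, 1) ∈ T) → y + (y - ν) ∈ U := by
    intro y t ht h1 h2 h3 h4 h5
    have hyR := (near_of_bz (x := y) (y := y + t) (by rwa [add_sub_cancel_left]) h2).1
    have h6 : y + (y - ν) ∈ BZ z R := bz_of_near (by
      rw [sub_sub_cancel_left]; exact unit_neg hU.unit) hyR (foot_near hU.unit hyR h3)
    have h7 := hU.down y t ht h2 h3 h1
    have h8 := hU.rk _ (by rwa [hsh]) h7
    have h9 := hU.rk _ (by rwa [hsh]) h1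
    rw [hsh, hl_add, hg_sub hU.unit] at h8
    rw [hsh, hl_add] at h9
    have h10 := hg_step (z := z) (x := y) (y := y + t) hU.unit (by rwa [add_sub_cancel_left])
    refine (hmU _).2 ⟨?_, h6⟩
    by_cases hlt : rk (y + (y - ν) - (1, 1)) < rk e
    · exact hlow _ h7 hlt
    · have h11 : rk (y + (y + t) - (1, 1)) = rk e := by omega
      rcases h5 h11 with h12 | h12
      · omega
      · have h13 : y + (y + t) = y + (y - ν) := by
          have h14 : hg ν z (y + t) = hg ν z y - 1 := by omega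
          have h15 : t = -ν := by
            unfold hg at h14
            rcases ht with rfl | rfl | rfl | rfl <;> rcases hU.unit with h | h | h | h <;>
              rw [h] at h14 ⊢ <;> simp only [Prod.fst_add, Prod.snd_add] at h14 <;>
              first
              | (exfalso; omega)
              | simp
          rw [h15, ← sub_eq_add_neg]
        rwa [← h13]
  rw [hr.iff hWw hwE, hr.iff (hWw.trans (subset_insert _ _)) hwE']
  obtain ⟨c1, c2⟩ := hsep.corner hy.1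
  refine toggle_box_dual ho hew (hbz e heR) hr1 c2 hr2 c1 ?_
  have hInF : ∀ g, ¬ Far z R g → InF (z.1 - R - 1) (z.1 + R) (z.2 - R - 1) (z.2 + R) g := by
    intro g hg
    unfold Far at hg
    rw [le_abs, le_abs] at hg
    unfold InF
    omega
  have main : Co (du B1 (insert e w)) (fi (zu e)) (fi (zv e)) ∨
      (∀ x, Co (du B1 (insert e w)) (fi (zv e)) x → ¬ Far z R x) ∨
      ∀ x, Co (du B1 (insert e w)) (fi (zu e)) x → ¬ Far z R x := by
    refine flat_local (ρ := ρ) (ω := du (X.E \ Bx a b c d) ω) (U := U) hU.unit ?_ hee.1 hu hv hρR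
      ?_ ?_ ?_ ?_ ?_ ?_ ?_ ?_ hV
    · intro m hm
      rw [← hsh m, mem_du] at hm
      have := (mem_Bx.1 hm.1).2.2
      simp only [Prod.fst_sub, Prod.snd_sub] at this
      omega
    · intro m h1 h2
      rw [← hsh m] at h1 h2 ⊢
      have h3 := hU.row _ h1 h2
      refine mem_du.2 ⟨hbz _ h1, fun h4 => ?_⟩
      rcases mem_union.1 (hwE' h4) with h5 | h5
      · exact h3.1 h5
      · exact h3.2 h5
    · intro m h1
      obtain ⟨h2, h3⟩ := (hmU m).1 h1
      rw [← hsh m]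
      exact mem_du.2 ⟨hbz _ (by rwa [hsh]), hTm _ h2 (by rwa [hsh])⟩
    · intro y t ht h1 h2
      obtain ⟨h3, h4⟩ := (hmU _).1 h1
      exact hbelow y t ht (hT h3) h4 h2 (hup _ h3) (fun _ => Or.inr h3)
    · intro h1 h2
      have h3 : fi (zu e) + (fi (zu e) + (fi (zv e) - fi (zu e))) = e + (1, 1) := by
        rw [add_sub_cancel]; exact hee.2
      have h3' : fi (zu e) + (fi (zu e) + (fi (zv e) - fi (zu e))) - (1, 1) = e := by
        rw [h3, add_sub_cancel_right]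
      exact hbelow (fi (zu e)) (fi (zv e) - fi (zu e)) hee.1 (by rw [h3']; exact he)
        (by rw [h3]; exact heR) h2 (by rw [h3']) (fun _ => Or.inl (by rw [add_sub_cancel]; omega))
    · intro h1 h2
      have h3 : fi (zv e) + (fi (zv e) + (fi (zu e) - fi (zv e))) = e + (1, 1) := by
        rw [add_sub_cancel, add_comm]; exact hee.2
      have h3' : fi (zv e) + (fi (zv e) + (fi (zu e) - fi (zv e))) - (1, 1) = e := by
        rw [h3, add_sub_cancel_right]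
      exact hbelow (fi (zv e)) (fi (zu e) - fi (zv e))
        (by have := unit_neg hee.1; rwa [neg_sub] at this) (by rw [h3']; exact he)
        (by rw [h3]; exact heR) h2 (by rw [h3']) (fun _ => Or.inl (by rw [add_sub_cancel]; omega))
    · intro m h1
      obtain ⟨h2, h3⟩ := mem_inter.1 h1
      obtain ⟨h4, h5⟩ := mem_HB.1 h3
      rw [← hsh m] at h2 h4 h5 ⊢
      obtain ⟨h6, h7⟩ := mem_du.1 h2
      refine mem_du.2 ⟨hbz _ h4, fun h8 => ?_⟩
      rcases mem_insert.1 h8 with h8 | h8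
      · exact h7 (h8 ▸ heω)
      · rw [hw, mem_union, mem_union] at h8
        rcases h8 with (h8 | h8) | h8
        · exact hηR _ h8 h4
        · rcases mem_cT.1 (mem_erase.1 h8).2 with h9 | h9
          · exact h7 h9.1
          · exact hU.FO _ h4 (hT h9.2) h9.1
        · exact (hU.pos _ h4 h5).2 h8
    · intro m h1 h2 h3
      rw [← hsh m] at h1 h2 h3 ⊢
      obtain ⟨-, h5⟩ := mem_du.1 h1
      obtain ⟨h6, h7⟩ := hU.pos _ h2 h3
      by_cases h8 : m - (1, 1) ∈ T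
      · left
        exact (hmU _).2 ⟨by rwa [hsh], h2⟩
      · right
        refine mem_du.2 ⟨mem_sdiff.2 ⟨h6, fun h9 => hsep.disj h9 (hbz _ h2)⟩, fun h9 => h5 ?_⟩
        by_cases h10 : m - (1, 1) = e
        · rw [h10]; exact mem_insert_self _ _
        · refine mem_insert_of_mem ?_
          rw [hw, mem_union, mem_union, mem_erase]
          exact Or.inl (Or.inr ⟨h10, mem_cT.2 (Or.inl ⟨h9, h8⟩)⟩)
    · rw [hl_add, ← hrke]
      have := hposF e he heR
      rw [← hU.rk e heR he] at this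
      exact this
  rcases main with h3 | h3 | h3
  · exact Or.inl h3
  · exact Or.inr (Or.inl fun g hg => hInF g (h3 g hg))
  · exact Or.inr (Or.inr fun g hg => hInF g (h3 g hg))

end step

end Pool.Agent.H33.Q1
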