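import Mathlib
import Pool.Agent.H33.Q1.A.Chain
import Pool.Agent.Q1.M6c.Flat

set_option autoImplicit false
open Finset

/-! # Flattening along flat walls seen from a box

`Cover` : the labels of `F` are covered by windows at flat wired walls, windows at flat free walls and
balls around the corners. `strip_compare` : comparison of the primitives in the box. -/

namespace Pool.Agent.H33.Q1

open Pool.Agent.H75.Perc hiding WL CT hh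
open Pool.Agent.H75.TwoArm Pool.Agent.H75.Four Pool.Agent.H69.Q1 Pool.Agent.Q1
open Pool.Agent.H60.Q1 Pool.Agent.H20.Q1
open Pool.Agent.H99.NC (PrP PrP_half PrP_exists_le)
open Pool.Agent.Q1.Env (flat InBx)

/-- cover of `F` by windows and balls -/
structure Cover (X : Env) (W F O : Finset (ℤ × ℤ)) (a b c d : ℤ) (ι : Type) where
  rk : ℤ × ℤ → ℕ
  M : ℕ
  s1 : Finset ι
  s2 : Finset ι
  s3 : Finset ι
  ν : ι → ℤ × ℤ
  z : ι → ℤ × ℤ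
  ρ : ι → ℤ
  R : ι → ℤ
  k : ι → ℕ
  r : ι → ℤ × ℤ
  up : ∀ i ∈ s1, UpW X.E W F O rk (ν i) (z i) (R i)
  low : ∀ i ∈ s2, LowW X.E W F O rk (ν i) (z i) (R i)
  ball : ∀ i ∈ s3, BallW W F O rk M (z i) (ρ i) (R i)
  rad : ∀ i, (i ∈ s1 ∨ i ∈ s2 ∨ i ∈ s3) → 1 ≤ ρ i ∧ ρ i < R i
  pow : ∀ i ∈ s3, 4 ^ k i * ρ i ≤ R i
  sep : ∀ i, (i ∈ s1 ∨ i ∈ s2 ∨ i ∈ s3) →
    Sep a b c d ((z i).1 - R i - 1) ((z i).1 + R i) ((z i).2 - R i - 1) ((z i).2 + R i)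
  root : ∀ i, (i ∈ s1 ∨ i ∈ s2 ∨ i ∈ s3) → Rt X W (r i) ∧
    ¬ inB ((z i).1 - R i - 1) ((z i).1 + R i) ((z i).2 - R i - 1) ((z i).2 + R i) (vx (r i)) ∧
    ¬ InF ((z i).1 - R i - 1) ((z i).1 + R i) ((z i).2 - R i - 1) ((z i).2 + R i) (fi (r i))
  cover : ∀ e ∈ F, (∃ i ∈ s1, Near (z i) (ρ i) (eu e) ∧ Near (z i) (ρ i) (ev e)) ∨
    (∃ i ∈ s2, Near (z i) (ρ i) (fi (zu e)) ∧ Near (z i) (ρ i) (fi (zv e))) ∨
    ∃ i ∈ s3, M ≤ rk e ∧ Near (z i) (ρ i) (eu e) ∧ Near (z i) (ρ i) (ev e)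

variable {X : Env} {W F O : Finset (ℤ × ℤ)} {a b c d : ℤ} {ι : Type}

lemma Sep.small {z : ℤ × ℤ} {R : ℤ} (h : Sep a b c d (z.1 - R - 1) (z.1 + R) (z.2 - R - 1) (z.2 + R)) :
    Sep a b c d (z.1 - R) (z.1 + R) (z.2 - R) (z.2 + R) := by
  unfold Sep at h ⊢
  omega

theorem Cover.chain (C : Cover X W F O a b c d ι) (hX : X.PlaneLike W)
    (hWo : ∀ l ∈ W, (l.1 + l.2) % 2 = 1) (hEW : Disjoint X.E W)
    (hF : F ⊆ X.E \ Bx a b c d) (hO : O ⊆ F) {ω : Finset (ℤ × ℤ)} (hω : ω ⊆ X.E \ Bx a b c d)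
    (h1 : ∀ i ∈ C.s1, ¬ V3 (C.ν i) (C.z i) (C.ρ i) (C.R i) ω)
    (h2 : ∀ i ∈ C.s2, ¬ V3 (C.ν i) (C.z i) (C.ρ i) (C.R i) (du (X.E \ Bx a b c d) ω))
    (h3 : ∀ i ∈ C.s3, ¬ OA (C.z i) (C.ρ i) (C.R i) ω) :
    Relation.ReflTransGen (X.StepEq a b c d) ω (flat F O ω) := by
  rw [← cT_full hO ω]
  conv_lhs => rw [← cT_empty O ω]
  refine chain_rank C.rk (fun T => cT O T ω) ?_
  intro T hT e he heT hlow hup
  refine step_of_inv hX hF hT hω he heT fun hcase => ?_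
  rcases C.cover e he with ⟨i, hi, hu, hv⟩ | ⟨i, hi, hu, hv⟩ | ⟨i, hi, hM, hu, hv⟩
  · have hor : i ∈ C.s1 ∨ i ∈ C.s2 ∨ i ∈ C.s3 := Or.inl hi
    obtain ⟨hρ, hρR⟩ := C.rad i hor
    obtain ⟨r1, r2, r3⟩ := C.root i hor
    have hee := Pool.Agent.H75.Four.PivAux.eu_ev (X.odd e (mem_sdiff.1 (hF he)).1)
    have heO : e ∈ O := by
      refine (C.up i hi).FO e ?_ he
      have := bz_mono (z := C.z i) hρR.le (bz_of_near hee.1 hu hv)
      rwa [hee.2] at this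
    have heω : e ∉ ω := by tauto
    refine inv_up hWo hEW hF hT hω he heT hlow hup (C.up i hi) hρR hu hv (h1 i hi) heω
      (C.sep i hor).small r1 (fun h => r3 ?_) (fun h => r2 ?_)
    · unfold InF at h ⊢; omega
    · unfold Int4 at h; unfold inB; omega
  · have hor : i ∈ C.s1 ∨ i ∈ C.s2 ∨ i ∈ C.s3 := Or.inr (Or.inl hi)
    obtain ⟨hρ, hρR⟩ := C.rad i hor
    obtain ⟨r1, r2, r3⟩ := C.root i hor
    have hee := faces_e (X.odd e (mem_sdiff.1 (hF he)).1)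
    have heO : e ∉ O := by
      refine (C.low i hi).FO e ?_ he
      have := bz_mono (z := C.z i) hρR.le (bz_of_near hee.1 hu hv)
      rwa [hee.2] at this
    have heω : e ∈ ω := by tauto
    exact inv_low hEW hF hT hω he heT hlow hup (C.low i hi) hρR hu hv (h2 i hi) heω
      (C.sep i hor) r1 r2 r3
  · have hor : i ∈ C.s1 ∨ i ∈ C.s2 ∨ i ∈ C.s3 := Or.inr (Or.inr hi)
    obtain ⟨hρ, hρR⟩ := C.rad i hor
    obtain ⟨r1, r2, r3⟩ := C.root i hor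
    refine inv_ball hWo hEW hF hO hT hω he (fun e' h4 h5 => hlow e' h4 (by omega)) hM (C.ball i hi)
      hρR hu hv (h3 i hi) (C.sep i hor).small r1 (fun h => r3 ?_) (fun h => r2 ?_)
    · unfold InF at h ⊢; omega
    · unfold Int4 at h; unfold inB; omega

lemma Pr_exists_le' (E : Finset (ℤ × ℤ)) (s : Finset ι)
    (A : ι → Finset (ℤ × ℤ) → Prop) : Pr E (fun ω => ∃ i ∈ s, A i ω) ≤ ∑ i ∈ s, Pr E (A i) := by
  have h := PrP_exists_le hf_Pb E s A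
  simpa only [hf_Pr] using h

/-- **Flattening along flat walls seen from a box.** -/
theorem strip_compare : ∃ δ C0 : ℝ, 0 < δ ∧ δ < 1 ∧ 0 < C0 ∧ ∀ (X : Env)
    (W F O : Finset (ℤ × ℤ)) (a b c d : ℤ) (ι : Type) (C : Cover X W F O a b c d ι),
    X.PlaneLike W → (∀ l ∈ W, (l.1 + l.2) % 2 = 1) → Disjoint X.E W → Bx a b c d ⊆ X.E →
    F ⊆ X.E \ Bx a b c d → O ⊆ F →
    ∀ (Hv Hf Gv Gf : ℤ × ℤ → ℂ), X.Prim a b c d Hv Hf →
    (X.flatten F O).Prim a b c d Gv Gf →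
    ∀ (u v : ℤ × ℤ), inB a b c d u → inB a b c d v → ∀ m : ℝ,
    (∀ ω1 ⊆ X.E \ Bx a b c d, ∀ Hv' Hf', (X.freeze (Bx a b c d) ω1).Prim a b c d Hv' Hf' →
      ‖Hv' u - Hv' v‖ ≤ m) →
    ‖(Gv u - Gv v) - (Hv u - Hv v)‖ ≤
      2 * m * (∑ i ∈ C.s1, C0 * (C.ρ i / C.R i) ^ 2 + ∑ i ∈ C.s2, C0 * (C.ρ i / C.R i) ^ 2 +
        ∑ i ∈ C.s3, (1 - δ) ^ C.k i) := by
  classical
  obtain ⟨C1, hC1, hup⟩ := V3_le
  obtain ⟨C2, hC2, hlow⟩ := V3_du_le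
  obtain ⟨δ, hδ0, hδ1, harm⟩ := OA_le
  refine ⟨δ, max C1 C2, hδ0, hδ1, lt_max_of_lt_left hC1, ?_⟩
  intro X W F O a b c d ι C hX hWo hEW hB hF hO Hv Hf Gv Gf hH hG u v hu hv m hm
  have hm0 : 0 ≤ m := by
    obtain ⟨Hv', Hf', h4⟩ := (X.freeze (Bx a b c d) ∅).exists_prim (a := a) (b := b) (c := c)
      (d := d) (by rw [Env.freeze_E]; exact subset_inter hB (Subset.refl _))
    exact (norm_nonneg _).trans (hm ∅ (empty_subset _) _ _ h4)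
  refine (hX.compare_chain hB hF hO hH hG hu hv hm).trans ?_
  refine mul_le_mul_of_nonneg_left ?_ (by linarith)
  rw [PrP_half]
  set E1 := X.E \ Bx a b c d with hE1
  refine le_trans (Pr_mono (B := fun ω => ((∃ i ∈ C.s1, V3 (C.ν i) (C.z i) (C.ρ i) (C.R i) ω) ∨
    (∃ i ∈ C.s2, V3 (C.ν i) (C.z i) (C.ρ i) (C.R i) (du E1 ω))) ∨
    ∃ i ∈ C.s3, OA (C.z i) (C.ρ i) (C.R i) ω) fun ω hω h => ?_) ?_
  · by_contra hcon
    rw [not_or, not_or] at hcon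
    obtain ⟨⟨k1, k2⟩, k3⟩ := hcon
    push Not at k1 k2 k3
    exact h (C.chain hX hWo hEW hF hO hω k1 k2 k3)
  · refine (Pr_or_le _ _ _).trans (add_le_add ((Pr_or_le _ _ _).trans (add_le_add ?_ ?_)) ?_)
    · refine (Pr_exists_le' _ _ _).trans (sum_le_sum fun i hi => ?_)
      have hor : i ∈ C.s1 ∨ i ∈ C.s2 ∨ i ∈ C.s3 := Or.inl hi
      obtain ⟨hρ, hρR⟩ := C.rad i hor
      refine (hup E1 (C.ν i) (C.z i) (C.ρ i) (C.R i) (C.up i hi).unit ?_ hρ hρR).trans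
        (mul_le_mul_of_nonneg_right (le_max_left _ _) (sq_nonneg _))
      intro l hl
      obtain ⟨g1, g2⟩ := mem_HB.1 hl
      exact mem_sdiff.2 ⟨((C.up i hi).pos l g1 g2).1, fun g3 => (C.sep i hor).small.disj g3 g1⟩
    · refine (Pr_exists_le' _ _ _).trans (sum_le_sum fun i hi => ?_)
      have hor : i ∈ C.s1 ∨ i ∈ C.s2 ∨ i ∈ C.s3 := Or.inr (Or.inl hi)
      obtain ⟨hρ, hρR⟩ := C.rad i hor
      refine (hlow E1 (C.ν i) (C.z i) (C.ρ i) (C.R i) (C.low i hi).unit ?_ hρ hρR).trans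
        (mul_le_mul_of_nonneg_right (le_max_right _ _) (sq_nonneg _))
      intro l hl
      obtain ⟨g1, g2⟩ := mem_HB.1 hl
      have hl' : l - (1, 1) + (1, 1) = l := sub_add_cancel _ _
      rw [← hl'] at g1 g2
      rw [mem_map]
      refine ⟨l - (1, 1), mem_sdiff.2 ⟨((C.low i hi).pos _ g1 g2).1, fun g3 => ?_⟩, ?_⟩
      · refine (C.sep i hor).disj g3 ?_
        rw [mem_Bx] at g1 ⊢
        simp only [Prod.fst_add, Prod.snd_add] at g1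
        omega
      · refine Prod.ext ?_ ?_ <;> simp [sh1]
    · refine (Pr_exists_le' _ _ _).trans (sum_le_sum fun i hi => ?_)
      have hor : i ∈ C.s1 ∨ i ∈ C.s2 ∨ i ∈ C.s3 := Or.inr (Or.inr hi)
      obtain ⟨hρ, hρR⟩ := C.rad i hor
      exact harm E1 (fun e he => X.odd e (mem_sdiff.1 he).1) (C.z i) (C.ρ i) (C.R i) (C.k i) hρ
        (C.pow i hi)

end Pool.Agent.H33.Q1
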